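import Pool.Agent.MWL.Stmts

/-!
Block MWL (MP_23468a_al), row HVP (helper54).
-/

set_option autoImplicit false

namespace Pool.Agent.MWL.H54

open Pool.Agent.MVO

theorem per_mul {n : ℕ} {R : FC} (h : LR n R) (x : ℕ) (hx : 2 ≤ x) (m : ℕ) :
    R.R 0 (sg 0 x) (sg 0 (x + m * n)) := by
  induction m with
  | zero =>
    have : x + 0 * n = x := by ring
    rw [this]
    exact R.refl _ _
  | succ m ih =>
    refine R.trans ih ?_
    refine R.ext ?_ ?_ (R.add (fun _ => x + m * n - 2) h.per)
    · intro j hj
      have hj0 : j = 0 := by omega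
      subst hj0
      show 2 + (x + m * n - 2) = x + m * n
      omega
    · intro j hj
      have hj0 : j = 0 := by omega
      subst hj0
      show n + 2 + (x + m * n - 2) = x + (m + 1) * n
      have : (m + 1) * n = m * n + n := by ring
      omega

theorem per_mod {n : ℕ} {R : FC} (h : LR n R) {x y : ℕ} (hx : 2 ≤ x) (hy : 2 ≤ y)
    (hxy : x ≡ y [MOD n]) : R.R 0 (sg 0 x) (sg 0 y) := by
  rcases Nat.le_total x y with hle | hle
  · obtain ⟨m, hm⟩ := (Nat.modEq_iff_dvd' hle).1 hxy
    have : y = x + m * n := by
      rw [mul_comm m n, ← hm]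
      omega
    rw [this]
    exact per_mul h x hx m
  · obtain ⟨m, hm⟩ := (Nat.modEq_iff_dvd' hle).1 hxy.symm
    have : x = y + m * n := by
      rw [mul_comm m n, ← hm]
      omega
    rw [this]
    exact R.symm (per_mul h y hy m)

theorem psh0 (i : ℕ) (a : ℕ → ℕ) (j : ℕ) : psh 0 (fun _ => i) a j = if i = j then a 0 else 0 := by
  simp [psh]

theorem psh1 (p i : ℕ) (a : ℕ → ℕ) (j : ℕ) :
    psh 1 (fun j => if j = 0 then p else i) a j =
      (if p = j then a 0 else 0) + (if i = j then a 1 else 0) := by
  simp [psh, Finset.sum_range_succ]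

theorem upd {n : ℕ} {R : FC} (h : LR n R) {k : ℕ} {a : ℕ → ℕ} {i : ℕ} (hi : i ≤ k) {c : ℕ}
    (ha : 2 ≤ a i) (hc : 2 ≤ c) (hac : a i ≡ c [MOD n]) : R.R k a (Function.update a i c) := by
  have hB : BMap 0 k (fun _ => i) := ⟨fun _ _ _ _ => le_refl i, fun _ _ => hi⟩
  have h1 := R.push k (fun _ => i) hB (per_mod h ha hc hac)
  refine R.ext ?_ ?_ (R.add (fun j => if j = i then 0 else a j) h1)
  · intro j _
    show psh 0 (fun _ => i) (sg 0 (a i)) j + (if j = i then 0 else a j) = a j
    rw [psh0]
    by_cases hj : j = i
    · subst hj
      simp [sg]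
    · rw [if_neg (fun e => hj e.symm), if_neg hj, zero_add]
  · intro j _
    show psh 0 (fun _ => i) (sg 0 c) j + (if j = i then 0 else a j) = Function.update a i c j
    rw [psh0]
    by_cases hj : j = i
    · subst hj
      simp [sg]
    · rw [if_neg (fun e => hj e.symm), if_neg hj, zero_add, Function.update_of_ne hj]

theorem hvp : HvpStmt := by
  intro n R h k a i hi
  refine ⟨fun hv => ?_, fun c ha hc hac => upd h hi ha hc hac⟩
  obtain ⟨h0, p, hp, h2⟩ := hv
  by_cases ha : 2 ≤ a i
  · have h1 := upd h hi (c := a i + 2 * n) ha (by omega) (by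
      have h3 : a i + 0 ≡ a i + 2 * n [MOD n] :=
        Nat.ModEq.add_left (a i) ((Nat.modEq_zero_iff_dvd.2 ⟨2, by ring⟩).symm)
      exact h3)
    refine R.ext (fun j _ => rfl) (fun j _ => ?_) h1
    show Function.update a i (a i + 2 * n) j = a j + if j = i then 2 * n else 0
    by_cases hj : j = i
    · subst hj
      simp
    · rw [Function.update_of_ne hj, if_neg hj, add_zero]
  · have ha1 : a i = 1 := by omega
    have hpi : p ≠ i := by
      intro e
      subst e
      omega
    have hplt : p < i := by omega
    have hB : BMap 1 k (fun j => if j = 0 then p else i) := by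
      refine ⟨fun x y hxy hy => ?_, fun x hx => ?_⟩
      · show (if x = 0 then p else i) ≤ (if y = 0 then p else i)
        by_cases hy0 : y = 0
        · have hx0 : x = 0 := by omega
          rw [if_pos hx0, if_pos hy0]
        · rw [if_neg hy0]
          by_cases hx0 : x = 0
          · rw [if_pos hx0]
            exact hp
          · rw [if_neg hx0]
      · show (if x = 0 then p else i) ≤ k
        by_cases hx0 : x = 0
        · rw [if_pos hx0]
          omega
        · rw [if_neg hx0]
          exact hi
    have h1 : R.R 1 (v2 2 1) (v2 2 (2 * n + 1)) := by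
      refine R.trans h.rr ?_
      refine R.ext ?_ ?_ (R.add (v2 0 n) h.rr)
      · intro j hj
        rcases (by omega : j = 0 ∨ j = 1) with e | e
        · subst e
          rfl
        · subst e
          show 1 + n = n + 1
          omega
      · intro j hj
        rcases (by omega : j = 0 ∨ j = 1) with e | e
        · subst e
          rfl
        · subst e
          show n + 1 + n = 2 * n + 1
          omega
    have h2' := R.push k _ hB h1
    refine R.ext ?_ ?_
      (R.add (fun j => a j - (if j = p then 2 else 0) - (if j = i then 1 else 0)) h2')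
    · intro j _
      show psh 1 (fun j => if j = 0 then p else i) (v2 2 1) j +
        (a j - (if j = p then 2 else 0) - (if j = i then 1 else 0)) = a j
      rw [psh1]
      by_cases hjp : j = p
      · subst hjp
        rw [if_pos rfl, if_pos rfl, if_neg (fun e => hpi e.symm), if_neg hpi]
        show 2 + 0 + (a j - 2 - 0) = a j
        omega
      · by_cases hji : j = i
        · subst hji
          rw [if_neg hpi, if_pos rfl, if_neg hjp, if_pos rfl]
          show 0 + 1 + (a j - 0 - 1) = a j
          omega
        · rw [if_neg (fun e => hjp e.symm), if_neg (fun e => hji e.symm), if_neg hjp, if_neg hji]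
          omega
    · intro j _
      show psh 1 (fun j => if j = 0 then p else i) (v2 2 (2 * n + 1)) j +
        (a j - (if j = p then 2 else 0) - (if j = i then 1 else 0)) =
          a j + if j = i then 2 * n else 0
      rw [psh1]
      by_cases hjp : j = p
      · subst hjp
        rw [if_pos rfl, if_pos rfl, if_neg (fun e => hpi e.symm), if_neg hpi, if_neg hpi]
        show 2 + 0 + (a j - 2 - 0) = a j + 0
        omega
      · by_cases hji : j = i
        · subst hji
          rw [if_neg hpi, if_pos rfl, if_neg hjp, if_pos rfl, if_pos rfl]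
          show 0 + (2 * n + 1) + (a j - 0 - 1) = a j + 2 * n
          omega
        · rw [if_neg (fun e => hjp e.symm), if_neg (fun e => hji e.symm), if_neg hjp, if_neg hji,
            if_neg hji]
          omega

end Pool.Agent.MWL.H54
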